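import Pool.Agent.Lib.MP_9c7981_al_H22.Rank

set_option autoImplicit false
universe u v

namespace Pool.Agent.Results.MP_9c7981_al.FiniteSimples

open Pool.MP_9c7981_al.H7 Cardinal

/-- A right Kasch, right generalized `R`-tight ring which is an algebra over a field `k` with
`dim_k R < |k| < ℶ_ω` has finitely generated essential right socle.  The same holds for right
Kasch, right generalized `R`-tight rings with fewer than `ℶ_ω` elements, or with finitely many
simple right modules, if the Jacobson radical of `R / l(Soc(R_R))` does not act invertibly on
minimal right ideals, and under related conditions. -/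
theorem result (R : Type u) [Ring R] (hK : RightKasch R) (hT : RightGenRTight R) :
    (∀ (k : Type u) [Field k] [Algebra k R], Module.rank k R < #k →
      #k < beth (Ordinal.omega0 : Ordinal.{u}) → SocleFGEssential R) ∧
    ((#R < beth (Ordinal.omega0 : Ordinal.{u}) ∨ FinitelyManySimples R) →
      (RadicalFaithfulOnHyperplane R ∨ RadicalActsTrivially R ∨ SimplesKilledByRadical R ∨
        ActionsInvertible R ∨
        ∃ (k : Type v) (_ : Field k) (_ : Algebra k R),
          AlgebraicOnMinimal k R ∨
            Cardinal.lift.{v} (Module.rank k R) < Cardinal.lift.{u} #k) →
      SocleFGEssential R) :=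
  finite_simples_rank R hK hT

end Pool.Agent.Results.MP_9c7981_al.FiniteSimples
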