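import Pool.Agent.Lib.MP_9c7981_al_H7.Main

set_option autoImplicit false
universe u

namespace Pool.Agent.Results.MP_9c7981_al.LeftAnnihilators

open Pool.MP_9c7981_al.H7

/-- Right Kasch, right generalized `R`-tight rings have finitely generated essential right socle if
proper two-sided ideals containing `l(Soc(R_R))` have nonzero right annihilators, in particular if
the ring is left Kasch, or isomorphic to its opposite. -/
theorem result (R : Type u) [Ring R] (hK : RightKasch R) (hT : RightGenRTight R)
    (h : ProperIdealsAnnihilated R ∨ LeftKasch R ∨ Nonempty (R ≃+* Rᵐᵒᵖ)) :
    SocleFGEssential R :=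
  left_annihilators_main R hK hT h

end Pool.Agent.Results.MP_9c7981_al.LeftAnnihilators
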