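import Pool.Agent.Lib.MP_9c7981_al_H7.Main

set_option autoImplicit false
universe u

namespace Pool.Agent.Results.MP_9c7981_al.LeftEssential

open Pool.MP_9c7981_al.H7

/-- In a right Kasch, right generalized `R`-tight ring the right socle meets every nonzero left
ideal. -/
theorem result (R : Type u) [Ring R] (hK : RightKasch R) (hT : RightGenRTight R)
    (J : Submodule R R) (hJ : J ≠ ⊥) : ∃ x ∈ J, x ≠ 0 ∧ x ∈ rightSocle R := by
  obtain ⟨a, ha, ha0⟩ := (Submodule.ne_bot_iff _).mp hJ
  obtain ⟨c, hc0, hc⟩ := left_essential_main R hK hT a ha0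
  exact ⟨c * a, J.smul_mem c ha, hc0, hc⟩

end Pool.Agent.Results.MP_9c7981_al.LeftEssential
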