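import Pool.Agent.Lib.MP_9c7981_al_H22.Main

set_option autoImplicit false
universe u v

namespace Pool.Agent.Results.MP_9c7981_al.NilRadical

open Pool.MP_9c7981_al.H7 Cardinal

/-- Right Kasch, right generalized `R`-tight rings with fewer than `ℶ_ω` elements have only
finitely many simple right modules; and right Kasch, right generalized `R`-tight rings `R` for
which the Jacobson radical of `R / Z(R_R)` is completely nil have finitely generated essential
right socle, if they have fewer than `ℶ_ω` elements (or satisfy another side condition). -/
theorem result (R : Type u) [Ring R] (hK : RightKasch R) (hT : RightGenRTight R) :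
    (#R < beth (Ordinal.omega0 : Ordinal.{u}) → FinitelyManySimples R) ∧
    (((CompletelyNilModSing R ∧ (#R < beth (Ordinal.omega0 : Ordinal.{u}) ∨
      FinitelyManySimples R ∨ BoundedHomogeneousLength R ∨ WeaklyTNilpotentModSing R ∨
      PIModSing R)) ∨ BoundedIndexModSing R ∨ SemilocalNilModSing R) →
    SocleFGEssential R) :=
  ⟨finitelyManySimples_of_card R hK hT, nil_radical_card R hK hT⟩

end Pool.Agent.Results.MP_9c7981_al.NilRadical
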